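import Mathlib
import Pool.Agent.H92.CK.Targets
import Pool.Agent.H29.IC.Tools

/-!
# Module CNJ of MP_0ee698_an: functions which are Hölder continuous across the surface have no jump
-/

open MeasureTheory Set Filter Topology Metric
open scoped ENNReal NNReal ContDiff RealInnerProductSpace Convolution

namespace Pool.Agent.H49.CK

open Pool.Agent.H94.IC Pool.Agent.H94.AC Pool.Agent.H92.CK Pool.Agent.H29.IC

/-! ## The cutoff function on the line -/

/-- zero near `0`, one far away -/
noncomputable def th (t : ℝ) : ℝ := Real.smoothTransition (t ^ 2 - 1)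

theorem th_smooth : ContDiff ℝ ∞ th :=
  Real.smoothTransition.contDiff.comp ((contDiff_id.pow 2).sub contDiff_const)

theorem th_zero {t : ℝ} (h : |t| < 1) : th t = 0 := by
  unfold th
  apply Real.smoothTransition.zero_of_nonpos
  have : t ^ 2 ≤ 1 := by
    rw [← sq_abs]
    nlinarith [abs_nonneg t]
  linarith

theorem th_one {t : ℝ} (h : 2 ≤ |t|) : th t = 1 := by
  unfold th
  apply Real.smoothTransition.one_of_one_le
  have : 4 ≤ t ^ 2 := by
    rw [← sq_abs]
    nlinarith [abs_nonneg t]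
  linarith

theorem th_nonneg (t : ℝ) : 0 ≤ th t := Real.smoothTransition.nonneg _

theorem th_le_one (t : ℝ) : th t ≤ 1 := Real.smoothTransition.le_one _

theorem th_deriv : ∃ L : ℝ, 0 ≤ L ∧ (∀ t, |deriv th t| ≤ L) ∧ ∀ t, 2 < |t| → deriv th t = 0 := by
  have hz : ∀ t : ℝ, 2 < |t| → deriv th t = 0 := by
    intro t ht
    have h1 : th =ᶠ[𝓝 t] fun _ => 1 := by
      have h2 : {s : ℝ | 2 < |s|} ∈ 𝓝 t := (isOpen_lt continuous_const continuous_abs).mem_nhds ht
      filter_upwards [h2] with s hs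
      exact th_one (le_of_lt hs)
    rw [h1.deriv_eq]
    simp
  have hc : Continuous (deriv th) := th_smooth.continuous_deriv (by simp)
  obtain ⟨L, hL⟩ := isCompact_Icc.exists_bound_of_continuousOn (hc.continuousOn (s := Icc (-2 : ℝ) 2))
  refine ⟨max L 0, le_max_right _ _, fun t => ?_, hz⟩
  by_cases ht : 2 < |t|
  · rw [hz t ht]
    simp
  · have h3 := hL t (abs_le.1 (not_lt.1 ht))
    rw [Real.norm_eq_abs] at h3
    exact h3.trans (le_max_left _ _)

/-! ## The volume of the layers -/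

theorem vol_layer (Ψ : OpenPartialHomeomorph E E) (p : E) (r : ℝ) (hb : closedBall p r ⊆ Ψ.source)
    (h2 : ContDiffOn ℝ ∞ Ψ.symm Ψ.target) :
    ∃ C : ℝ, 0 ≤ C ∧ ∀ d : ℝ, 0 < d →
      volume (closedBall p r ∩ {x | |(Ψ x) 2| ≤ d}) ≤ ENNReal.ofReal (C * d) := by
  have hKc : IsCompact (Ψ '' closedBall p r) :=
    (isCompact_closedBall p r).image_of_continuousOn (Ψ.continuousOn.mono hb)
  have hKt : Ψ '' closedBall p r ⊆ Ψ.target := by
    rintro _ ⟨x, hx, rfl⟩
    exact Ψ.map_source (hb hx)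
  obtain ⟨R, hR⟩ := hKc.isBounded.subset_closedBall (0 : E)
  have hR' : Ψ '' closedBall p r ⊆ closedBall (0 : E) (max R 0) :=
    hR.trans (closedBall_subset_closedBall (le_max_left _ _))
  set R' := max R 0 with hRdef
  have hR0 : 0 ≤ R' := le_max_right _ _
  have hcd : ContinuousOn (fun y => (fderiv ℝ Ψ.symm y).det) Ψ.target :=
    ContinuousLinearMap.continuous_det.comp_continuousOn
      (h2.continuousOn_fderiv_of_isOpen Ψ.open_target (by simp))
  obtain ⟨J, hJ⟩ := hKc.exists_bound_of_continuousOn (hcd.mono hKt)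
  have hJ' : ∀ y ∈ Ψ '' closedBall p r, |(fderiv ℝ Ψ.symm y).det| ≤ max J 0 := fun y hy =>
    (hJ y hy).trans (le_max_left _ _)
  set J' := max J 0 with hJdef
  have hJ0 : 0 ≤ J' := le_max_right _ _
  refine ⟨J' * (8 * R' ^ 2), by positivity, fun d hd => ?_⟩
  set A := closedBall p r ∩ {x | |(Ψ x) 2| ≤ d} with hA
  set T := Ψ '' closedBall p r ∩ {y : E | |y 2| ≤ d} with hT
  have hTm : MeasurableSet T := by
    refine hKc.measurableSet.inter ?_
    exact (isClosed_le (by fun_prop) continuous_const).measurableSet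
  have hTA : Ψ.symm '' T = A := by
    ext x
    constructor
    · rintro ⟨y, ⟨⟨z, hz, rfl⟩, hy⟩, rfl⟩
      rw [Ψ.left_inv (hb hz)]
      exact ⟨hz, hy⟩
    · rintro ⟨hx, hx2⟩
      exact ⟨Ψ x, ⟨⟨x, hx, rfl⟩, hx2⟩, Ψ.left_inv (hb hx)⟩
  have hTt : T ⊆ Ψ.target := inter_subset_left.trans hKt
  have hcv := lintegral_abs_det_fderiv_eq_addHaar_image volume hTm
    (f := Ψ.symm) (f' := fun y => fderiv ℝ Ψ.symm y)
    (fun y hy => ((h2.contDiffAt (Ψ.open_target.mem_nhds (hTt hy))).differentiableAt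
      (by simp)).hasFDerivAt.hasFDerivWithinAt) (Ψ.symm.injOn.mono (by simpa using hTt))
  rw [hTA] at hcv
  rw [← hcv]
  have hb1 : ∫⁻ y in T, ENNReal.ofReal |(fderiv ℝ Ψ.symm y).det| ≤ ENNReal.ofReal J' * volume T := by
    rw [← setLIntegral_const]
    refine setLIntegral_mono' hTm fun y hy => ?_
    exact ENNReal.ofReal_le_ofReal (hJ' y hy.1)
  refine hb1.trans ?_
  have hbox : volume T ≤ ENNReal.ofReal (8 * R' ^ 2 * d) := by
    have m1 : MeasurePreserving (MeasurableEquiv.toLp 2 (Fin 3 → ℝ)) := PiLp.volume_preserving_toLp (Fin 3)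
    rw [← m1.measure_preimage_equiv]
    have hsub : (MeasurableEquiv.toLp 2 (Fin 3 → ℝ)) ⁻¹' T
        ⊆ Icc (![-R', -R', -d] : Fin 3 → ℝ) ![R', R', d] := by
      intro q hq
      obtain ⟨hq1, hq2⟩ := hq
      have n1 := hR' hq1
      rw [mem_closedBall, dist_zero_right] at n1
      have n2 : ∀ k : Fin 3, |q k| ≤ R' := fun k =>
        (PiLp.norm_apply_le ((MeasurableEquiv.toLp 2 (Fin 3 → ℝ)) q) k).trans n1
      have n3 : |q 2| ≤ d := hq2
      have a0 := abs_le.1 (n2 0)
      have a1 := abs_le.1 (n2 1)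
      have a2 := abs_le.1 n3
      constructor
      · intro k
        fin_cases k
        · exact a0.1
        · exact a1.1
        · exact a2.1
      · intro k
        fin_cases k
        · exact a0.2
        · exact a1.2
        · exact a2.2
    refine (measure_mono hsub).trans ?_
    rw [Real.volume_Icc_pi, Fin.prod_univ_three]
    simp only [Matrix.cons_val_zero, Matrix.cons_val_one, Matrix.cons_val]
    rw [← ENNReal.ofReal_mul (by linarith), ← ENNReal.ofReal_mul (by nlinarith)]
    apply ENNReal.ofReal_le_ofReal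
    nlinarith
  calc ENNReal.ofReal J' * volume T ≤ ENNReal.ofReal J' * ENNReal.ofReal (8 * R' ^ 2 * d) := by gcongr
    _ = ENNReal.ofReal (J' * (8 * R' ^ 2) * d) := by
        rw [← ENNReal.ofReal_mul hJ0]
        congr 1
        ring

/-! ## Small functions have small jumps -/

/-- the cutoff near the surface -/
noncomputable def kap (Ψ : OpenPartialHomeomorph E E) (n : ℕ) (x : E) : ℝ := th ((n + 1) * (Ψ x) 2)

theorem co_smooth {Ψ : OpenPartialHomeomorph E E} (h1 : ContDiffOn ℝ ∞ Ψ Ψ.source) {x : E}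
    (hx : x ∈ Ψ.source) : ContDiffAt ℝ ∞ (fun z => (Ψ z) 2) x := by
  have h3 : ContDiffAt ℝ ∞ Ψ x := h1.contDiffAt (Ψ.open_source.mem_nhds hx)
  exact (EuclideanSpace.proj (2 : Fin 3) : E →L[ℝ] ℝ).contDiff.contDiffAt.comp x h3

theorem kap_smooth {Ψ : OpenPartialHomeomorph E E} (h1 : ContDiffOn ℝ ∞ Ψ Ψ.source) (n : ℕ) {x : E}
    (hx : x ∈ Ψ.source) : ContDiffAt ℝ ∞ (kap Ψ n) x :=
  th_smooth.contDiffAt.comp x (contDiffAt_const.mul (co_smooth h1 hx))

theorem kap_fderiv {Ψ : OpenPartialHomeomorph E E} (h1 : ContDiffOn ℝ ∞ Ψ Ψ.source) (n : ℕ) {x : E}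
    (hx : x ∈ Ψ.source) : fderiv ℝ (kap Ψ n) x
      = (deriv th ((n + 1) * (Ψ x) 2) * (n + 1)) • fderiv ℝ (fun z => (Ψ z) 2) x := by
  have h2 : HasFDerivAt (fun z => (Ψ z) 2) (fderiv ℝ (fun z => (Ψ z) 2) x) x :=
    ((co_smooth h1 hx).differentiableAt (by simp)).hasFDerivAt
  have h3 : HasFDerivAt (fun z => ((n : ℝ) + 1) * (Ψ z) 2)
      (((n : ℝ) + 1) • fderiv ℝ (fun z => (Ψ z) 2) x) x := h2.const_mul _
  have h4 : HasDerivAt th (deriv th ((n + 1) * (Ψ x) 2)) ((n + 1) * (Ψ x) 2) :=
    (th_smooth.differentiable (by simp) _).hasDerivAt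
  have h5 := h4.comp_hasFDerivAt x h3
  have h6 : (kap Ψ n) = th ∘ fun z => ((n : ℝ) + 1) * (Ψ z) 2 := rfl
  rw [h6, h5.fderiv, smul_smul]

theorem small_jump (S : Set E) (Ψ : OpenPartialHomeomorph E E) (p : E) (r : ℝ)
    (hS : IsClosed S) (hS0 : volume S = 0) (hb : closedBall p r ⊆ Ψ.source)
    (h1 : ContDiffOn ℝ ∞ Ψ Ψ.source) (h2 : ContDiffOn ℝ ∞ Ψ.symm Ψ.target)
    (hc : ∀ x ∈ Ψ.source, x ∈ S ↔ (Ψ x) 2 = 0) (X : E → E) (hX : ContDiff ℝ ∞ X)
    (hXc : HasCompactSupport X) (hXs : tsupport X ⊆ ball p r) :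
    ∃ C : ℝ, 0 ≤ C ∧ ∀ (g : E → ℝ) (η : ℝ), 0 ≤ η → ContDiffOn ℝ ∞ g (ball p r \ S) →
      IntegrableOn (fun x => g x * dv X x + ⟪gr g x, X x⟫) (ball p r) →
      (∀ x ∈ tsupport X, x ∉ S → |g x| ≤ η) →
      |∫ x in ball p r, (g x * dv X x + ⟪gr g x, X x⟫)| ≤ C * η := by
  obtain ⟨L, hL0, hL, hLz⟩ := th_deriv
  obtain ⟨Cv, hCv0, hCv⟩ := vol_layer Ψ p r hb h2
  obtain ⟨Mx, hMx⟩ := hX.continuous.bounded_above_of_compact_support hXc
  have hMx0 : 0 ≤ Mx := (norm_nonneg _).trans (hMx 0)
  have hcg : ContinuousOn (fun x => fderiv ℝ (fun z => (Ψ z) 2) x) Ψ.source := by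
    have h3 : ContDiffOn ℝ ∞ (fun z => (Ψ z) 2) Ψ.source := fun x hx =>
      (co_smooth h1 hx).contDiffWithinAt
    exact h3.continuousOn_fderiv_of_isOpen Ψ.open_source (by simp)
  obtain ⟨L2, hL2⟩ := (isCompact_closedBall p r).exists_bound_of_continuousOn (hcg.mono hb)
  have hL2' : ∀ x ∈ closedBall p r, ‖fderiv ℝ (fun z => (Ψ z) 2) x‖ ≤ max L2 0 := fun x hx =>
    (hL2 x hx).trans (le_max_left _ _)
  set L3 := max L2 0 with hL3
  have hL30 : 0 ≤ L3 := le_max_right _ _
  have hbs : ball p r ⊆ Ψ.source := ball_subset_closedBall.trans hb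
  refine ⟨L * L3 * Mx * (Cv * 2), by positivity, fun g η hη hg hgi hgη => ?_⟩
  set F : E → ℝ := fun x => g x * dv X x + ⟪gr g x, X x⟫ with hF
  have hSae : ∀ᵐ x ∂(volume.restrict (ball p r)), x ∉ S :=
    ae_restrict_of_ae (compl_mem_ae_iff.mpr hS0)
  have hop : IsOpen (ball p r \ S) := isOpen_ball.sdiff hS
  -- the limit
  have hlim : Tendsto (fun n : ℕ => ∫ x in ball p r, kap Ψ n x * F x) atTop
      (𝓝 (∫ x in ball p r, F x)) := by
    refine tendsto_integral_of_dominated_convergence (fun x => |F x|) ?_ hgi.abs ?_ ?_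
    · intro n
      refine AEStronglyMeasurable.mul ?_ hgi.aestronglyMeasurable
      have : ContinuousOn (kap Ψ n) (ball p r) := fun x hx =>
        (kap_smooth h1 n (hbs hx)).continuousAt.continuousWithinAt
      exact this.aestronglyMeasurable isOpen_ball.measurableSet
    · intro n
      refine Eventually.of_forall fun x => ?_
      rw [norm_mul, Real.norm_eq_abs, Real.norm_eq_abs, kap, abs_of_nonneg (th_nonneg _)]
      exact mul_le_of_le_one_left (abs_nonneg _) (th_le_one _)
    · filter_upwards [hSae, ae_restrict_mem isOpen_ball.measurableSet] with x hxS hxb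
      have h3 : (Ψ x) 2 ≠ 0 := fun h => hxS ((hc x (hbs hxb)).2 h)
      have h4 : 0 < |(Ψ x) 2| := abs_pos.2 h3
      obtain ⟨N, hN⟩ := exists_nat_gt (2 / |(Ψ x) 2|)
      have h5 : ∀ n ≥ N, kap Ψ n x * F x = F x := by
        intro n hn
        have h6 : 2 ≤ |((n : ℝ) + 1) * (Ψ x) 2| := by
          rw [abs_mul, abs_of_pos (by positivity : (0 : ℝ) < (n : ℝ) + 1)]
          rw [div_lt_iff₀ h4] at hN
          have h7 : (N : ℝ) ≤ n := by exact_mod_cast hn
          nlinarith
        rw [kap, th_one h6, one_mul]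
      exact tendsto_atTop_of_eventually_const h5
  refine le_of_tendsto hlim.abs (Eventually.of_forall fun n => ?_)
  -- the fields
  set Y : E → E := fun x => (g x * kap Ψ n x) • X x with hY
  have hYs : tsupport Y ⊆ tsupport X := closure_mono (Function.support_smul_subset_right (fun x => g x * kap Ψ n x) X)
  have hYc : HasCompactSupport Y := hXc.smul_left (f := fun x => g x * kap Ψ n x)
  have hzero : ∀ x ∈ Ψ.source, x ∈ S → ∀ᶠ y in 𝓝 x, kap Ψ n y = 0 := by
    intro x hx hxS
    have h3 : (Ψ x) 2 = 0 := (hc x hx).1 hxS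
    have h4 : ContinuousAt (fun z => ((n : ℝ) + 1) * (Ψ z) 2) x :=
      continuousAt_const.mul (co_smooth h1 hx).continuousAt
    have h5 : ∀ᶠ y in 𝓝 x, |((n : ℝ) + 1) * (Ψ y) 2| < 1 := by
      refine h4.abs.eventually_lt continuousAt_const ?_
      simp only [h3, mul_zero, abs_zero]
      exact zero_lt_one
    filter_upwards [h5] with y hy
    exact th_zero hy
  have hYd : ContDiff ℝ ∞ Y := by
    rw [contDiff_iff_contDiffAt]
    intro x
    by_cases hx : x ∈ tsupport X
    · have hxb := hXs hx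
      by_cases hxS : x ∈ S
      · have h3 : Y =ᶠ[𝓝 x] fun _ => 0 := by
          filter_upwards [hzero x (hbs hxb) hxS] with y hy
          simp [hY, hy]
        exact contDiffAt_const.congr_of_eventuallyEq h3
      · exact ((hg.contDiffAt (hop.mem_nhds ⟨hxb, hxS⟩)).mul (kap_smooth h1 n (hbs hxb))).smul
          hX.contDiffAt
    · have h3 : x ∉ tsupport Y := fun h => hx (hYs h)
      have h4 : Y =ᶠ[𝓝 x] 0 := notMem_tsupport_iff_eventuallyEq.mp h3
      exact contDiffAt_const.congr_of_eventuallyEq h4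
  have h0 : ∫ x, dv Y x = 0 := integral_dv_eq_zero (hYd.of_le (by exact_mod_cast le_top)) hYc
  have h0' : ∫ x in ball p r, dv Y x = 0 := by
    rw [← h0]
    apply setIntegral_eq_integral_of_forall_compl_eq_zero
    intro x hx
    exact dv_eq_zero_of_notMem fun h => hx (hXs (hYs h))
  have hpt : ∀ x ∈ ball p r, x ∉ S → dv Y x = kap Ψ n x * F x + g x * fderiv ℝ (kap Ψ n) x (X x) := by
    intro x hxb hxS
    have hgd : DifferentiableAt ℝ g x := (hg.contDiffAt (hop.mem_nhds ⟨hxb, hxS⟩)).differentiableAt (by simp)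
    have hkd : DifferentiableAt ℝ (kap Ψ n) x := (kap_smooth h1 n (hbs hxb)).differentiableAt (by simp)
    have hXd : DifferentiableAt ℝ X x := hX.contDiffAt.differentiableAt (by simp)
    have hgk : DifferentiableAt ℝ (fun y => g y * kap Ψ n y) x := hgd.mul hkd
    rw [hY, dv_smul hgk hXd, gr_mul hgd hkd, inner_add_left, real_inner_smul_left, real_inner_smul_left,
      inner_gr, hF]
    ring
  set D : Set E := closedBall p r ∩ {x | |(Ψ x) 2| ≤ 2 / (n + 1)} with hD
  have hn0 : (0 : ℝ) < (n : ℝ) + 1 := by positivity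
  have hDv : volume D ≤ ENNReal.ofReal (Cv * (2 / (n + 1))) := hCv _ (by positivity)
  set G : E → ℝ := fun x => g x * fderiv ℝ (kap Ψ n) x (X x) with hG
  have hGb : ∀ x ∈ ball p r, x ∉ S → |G x| ≤ η * (L * (n + 1) * L3 * Mx) ∧ (x ∉ D → G x = 0) := by
    intro x hxb hxS
    have hxs := hbs hxb
    rw [hG]
    simp only
    rw [kap_fderiv h1 n hxs]
    by_cases hx : x ∈ tsupport X
    · refine ⟨?_, ?_⟩
      · rw [abs_mul]
        refine mul_le_mul (hgη x hx hxS) ?_ (abs_nonneg _) hη
        rw [← Real.norm_eq_abs]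
        refine (ContinuousLinearMap.le_opNorm _ _).trans ?_
        refine mul_le_mul ?_ (hMx x) (norm_nonneg _) (by positivity)
        rw [norm_smul, norm_mul, Real.norm_eq_abs, Real.norm_eq_abs, abs_of_pos hn0]
        refine mul_le_mul ?_ (hL2' x (ball_subset_closedBall hxb)) (norm_nonneg _) (by positivity)
        exact mul_le_mul_of_nonneg_right (hL _) hn0.le
      · intro hxD
        have h3 : 2 < |((n : ℝ) + 1) * (Ψ x) 2| := by
          by_contra hcon
          apply hxD
          refine ⟨ball_subset_closedBall hxb, ?_⟩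
          rw [mem_ofPred_eq, le_div_iff₀ hn0, mul_comm]
          rw [abs_mul, abs_of_pos hn0] at hcon
          exact not_lt.1 hcon
        rw [hLz _ h3]
        simp
    · have h3 : X x = 0 := image_eq_zero_of_notMem_tsupport hx
      rw [h3]
      simp only [map_zero, mul_zero, abs_zero]
      exact ⟨by positivity, fun _ => trivial⟩
  have hkF : IntegrableOn (fun x => kap Ψ n x * F x) (ball p r) := by
    refine Integrable.mono hgi ?_ ?_
    · refine AEStronglyMeasurable.mul ?_ hgi.aestronglyMeasurable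
      have : ContinuousOn (kap Ψ n) (ball p r) := fun x hx =>
        (kap_smooth h1 n (hbs hx)).continuousAt.continuousWithinAt
      exact this.aestronglyMeasurable isOpen_ball.measurableSet
    · refine Eventually.of_forall fun x => ?_
      rw [norm_mul, Real.norm_eq_abs, kap, abs_of_nonneg (th_nonneg _)]
      exact mul_le_of_le_one_left (norm_nonneg _) (th_le_one _)
  have hYi : IntegrableOn (fun x => dv Y x) (ball p r) :=
    ((continuous_dv (hYd.of_le (by exact_mod_cast le_top))).integrable_of_hasCompactSupport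
      (hasCompactSupport_dv hYc)).integrableOn
  have hae : ∀ᵐ x ∂(volume.restrict (ball p r)), kap Ψ n x * F x = dv Y x - G x := by
    filter_upwards [hSae, ae_restrict_mem isOpen_ball.measurableSet] with x hxS hxb
    rw [hpt x hxb hxS]
    ring
  have hGi : IntegrableOn G (ball p r) := by
    have h3 : IntegrableOn (fun x => dv Y x - kap Ψ n x * F x) (ball p r) := hYi.sub hkF
    refine h3.congr ?_
    filter_upwards [hae] with x hx
    rw [hx]
    ring
  rw [integral_congr_ae hae, integral_sub hYi hGi, h0', zero_sub, abs_neg]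
  have hcl : IsClosed D := by
    have h3 : ContinuousOn (fun x => |(Ψ x) 2|) (closedBall p r) := fun x hx =>
      ((co_smooth h1 (hb hx)).continuousAt.abs).continuousWithinAt
    exact h3.preimage_isClosed_of_isClosed isClosed_closedBall isClosed_Iic
  have hb1 : ∀ᵐ x ∂(volume.restrict (ball p r)), ‖G x‖ ≤ D.indicator (fun _ => η * (L * (n + 1) * L3 * Mx)) x := by
    filter_upwards [hSae, ae_restrict_mem isOpen_ball.measurableSet] with x hxS hxb
    obtain ⟨a1, a2⟩ := hGb x hxb hxS
    by_cases hxD : x ∈ D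
    · rw [indicator_of_mem hxD]
      exact a1
    · rw [indicator_of_notMem hxD, a2 hxD, norm_zero]
  have hDfin : volume.real D ≤ Cv * (2 / (n + 1)) := by
    rw [Measure.real]
    exact ENNReal.toReal_le_of_le_ofReal (by positivity) hDv
  have hDlt : volume D ≠ ⊤ := (hDv.trans_lt ENNReal.ofReal_lt_top).ne
  have hii : Integrable (D.indicator fun _ => η * (L * (n + 1) * L3 * Mx)) (volume : Measure E) := by
    rw [integrable_indicator_iff hcl.measurableSet]
    exact integrableOn_const hDlt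
  have hb2 := norm_integral_le_of_norm_le hii.integrableOn hb1
  rw [Real.norm_eq_abs] at hb2
  refine hb2.trans ?_
  have hb3 : ∫ x in ball p r, D.indicator (fun _ => η * (L * (n + 1) * L3 * Mx)) x
      ≤ ∫ x, D.indicator (fun _ => η * (L * (n + 1) * L3 * Mx)) x := by
    refine setIntegral_le_integral hii (Eventually.of_forall fun x => ?_)
    exact indicator_nonneg (fun _ _ => by positivity) x
  refine hb3.trans ?_
  rw [integral_indicator hcl.measurableSet, setIntegral_const, smul_eq_mul]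
  calc volume.real D * (η * (L * (n + 1) * L3 * Mx))
      ≤ (Cv * (2 / (n + 1))) * (η * (L * (n + 1) * L3 * Mx)) :=
        mul_le_mul_of_nonneg_right hDfin (by positivity)
    _ = L * L3 * Mx * (Cv * 2) * η := by
        field_simp

/-! ## Smooth approximation -/

theorem moll (S K : Set E) (h : E → ℝ) (p : E) (r C : ℝ) (hS0 : volume S = 0)
    (hi : IntegrableOn h (ball p r))
    (hH : ∀ x ∈ ball p r, ∀ y ∈ ball p r, x ∉ S → y ∉ S → |h x - h y| ≤ C * Real.sqrt (dist x y))
    (hK : IsCompact K) (hKb : K ⊆ ball p r) (η : ℝ) (hη : 0 < η) :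
    ∃ U : E → ℝ, ContDiff ℝ ∞ U ∧ ∀ x ∈ K, x ∉ S → |h x - U x| ≤ η := by
  obtain ⟨δ, hδ, hδK⟩ := hK.exists_thickening_subset_open isOpen_ball hKb
  -- the radius
  obtain ⟨ε, hε, hεδ, hεη⟩ : ∃ ε : ℝ, 0 < ε ∧ ε ≤ δ ∧ |C| * Real.sqrt ε ≤ η := by
    have h1 : Tendsto (fun t : ℝ => |C| * Real.sqrt t) (𝓝[>] 0) (𝓝 0) := by
      have h2 : Tendsto (fun t : ℝ => |C| * Real.sqrt t) (𝓝 0) (𝓝 (|C| * Real.sqrt 0)) :=
        (continuous_const.mul Real.continuous_sqrt).tendsto 0
      rw [Real.sqrt_zero, mul_zero] at h2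
      exact h2.mono_left nhdsWithin_le_nhds
    have h3 : ∀ᶠ t in 𝓝[>] (0 : ℝ), |C| * Real.sqrt t < η := h1.eventually_lt_const hη
    have h4 : ∀ᶠ t in 𝓝[>] (0 : ℝ), t ∈ Ioo 0 δ := Ioo_mem_nhdsGT hδ
    obtain ⟨t, ht1, ht2⟩ := (h3.and h4).exists
    exact ⟨t, ht2.1, ht2.2.le, ht1.le⟩
  let φ : ContDiffBump (0 : E) := ⟨ε / 2, ε, by positivity, by linarith⟩
  set h' : E → ℝ := (ball p r).indicator h with hh'
  have hint : Integrable h' := (integrable_indicator_iff isOpen_ball.measurableSet).2 hi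
  refine ⟨(φ.normed volume ⋆[ContinuousLinearMap.lsmul ℝ ℝ, volume] h'), ?_, ?_⟩
  · exact HasCompactSupport.contDiff_convolution_left (n := ⊤) _ φ.hasCompactSupport_normed
      φ.contDiff_normed hint.locallyIntegrable
  · intro x hx hxS
    have hxb : x ∈ ball p r := hKb hx
    set g : E → ℝ := S.indicator (fun _ => h x) + Sᶜ.indicator h' with hg
    have hgn : ∀ y ∉ S, g y = h' y := by
      intro y hy
      simp [hg, hy]
    have hgs : ∀ y ∈ S, g y = h x := by
      intro y hy
      simp [hg, hy]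
    have hae : h' =ᵐ[volume] g := by
      have : ∀ᵐ y ∂(volume : Measure E), y ∉ S := compl_mem_ae_iff.mpr hS0
      filter_upwards [this] with y hy
      exact (hgn y hy).symm
    have hgm : AEStronglyMeasurable g volume := hint.aestronglyMeasurable.congr hae
    rw [convolution_congr _ (ae_eq_refl _) hae]
    have hgx : g x = h x := by
      rw [hgn x hxS, hh', indicator_of_mem hxb]
    have h1 := φ.dist_normed_convolution_le (x₀ := x) (ε := η) hgm ?_
    · rw [hgx, Real.dist_eq, abs_sub_comm] at h1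
      exact h1
    · intro y hy
      rw [hgx, Real.dist_eq]
      by_cases hyS : y ∈ S
      · rw [hgs y hyS, sub_self, abs_zero]
        exact hη.le
      · have hyd : dist y x < ε := hy
        have hyb : y ∈ ball p r := hδK (mem_thickening_iff.2 ⟨x, hx, hyd.trans_le hεδ⟩)
        rw [hgn y hyS, hh', indicator_of_mem hyb]
        calc |h y - h x| ≤ C * Real.sqrt (dist y x) := hH y hyb x hxb hyS hxS
          _ ≤ |C| * Real.sqrt ε := by
              refine mul_le_mul (le_abs_self C) (Real.sqrt_le_sqrt hyd.le) (Real.sqrt_nonneg _)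
                (abs_nonneg _)
          _ ≤ η := hεη

/-- module CNJ -/
theorem pf_CNJ : T_CNJ := by
  intro Ω S h Ψ p r C hΩ hS hS0 hh hh2 hg2 hr hb hsΩ h1 h2 hc hH X hX hXc hXs
  have hbs : ball p r ⊆ Ψ.source := ball_subset_closedBall.trans hb
  have hbΩ : ball p r ⊆ Ω := hbs.trans hsΩ
  have hfin : IsFiniteMeasure (volume.restrict (ball p r)) := ⟨by
    rw [Measure.restrict_apply_univ]
    exact measure_ball_lt_top⟩
  have hle : volume.restrict (ball p r) ≤ volume.restrict Ω := Measure.restrict_mono hbΩ le_rfl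
  have hhb : MemLp h 2 (volume.restrict (ball p r)) := hh2.mono_measure hle
  have hgb : MemLp (gr h) 2 (volume.restrict (ball p r)) := hg2.mono_measure hle
  have hhi : IntegrableOn h (ball p r) := hhb.integrable (by norm_num)
  have hgi : IntegrableOn (gr h) (ball p r) := hgb.integrable (by norm_num)
  have hdvc : Continuous (dv X) := continuous_dv (hX.of_le (by exact_mod_cast le_top))
  obtain ⟨M1, hM1⟩ := hdvc.bounded_above_of_compact_support (hasCompactSupport_dv hXc)
  obtain ⟨M2, hM2⟩ := hX.continuous.bounded_above_of_compact_support hXc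
  have hint : IntegrableOn (fun x => h x * dv X x + ⟪gr h x, X x⟫) (ball p r) := by
    refine Integrable.add ?_ ?_
    · refine Integrable.mono' (hhi.norm.mul_const M1)
        (hhi.aestronglyMeasurable.mul hdvc.aestronglyMeasurable) ?_
      refine Eventually.of_forall fun x => ?_
      rw [norm_mul]
      exact mul_le_mul_of_nonneg_left (hM1 x) (norm_nonneg _)
    · refine Integrable.mono' (hgi.norm.const_mul M2)
        (hgi.aestronglyMeasurable.inner hX.continuous.aestronglyMeasurable) ?_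
      refine Eventually.of_forall fun x => ?_
      refine (norm_inner_le_norm _ _).trans ?_
      rw [mul_comm]
      exact mul_le_mul_of_nonneg_right (hM2 x) (norm_nonneg _)
  have hJ : JX Ω X h = ∫ x in ball p r, (h x * dv X x + ⟪gr h x, X x⟫) := by
    unfold JX
    refine setIntegral_eq_of_subset_of_forall_sdiff_eq_zero hΩ.measurableSet hbΩ ?_
    intro x hx
    have h3 : x ∉ tsupport X := fun h => hx.2 (hXs h)
    rw [dv_eq_zero_of_notMem h3, image_eq_zero_of_notMem_tsupport h3]
    simp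
  obtain ⟨C1, hC10, hC1⟩ := small_jump S Ψ p r hS hS0 hb h1 h2 hc X hX hXc hXs
  rw [hJ, ← abs_nonpos_iff]
  refine le_of_forall_pos_le_add fun ε hε => ?_
  rw [zero_add]
  obtain ⟨U, hU, hUη⟩ := moll S (tsupport X) h p r C hS0 hhi hH hXc hXs (ε / (C1 + 1)) (by positivity)
  -- the smooth function has no jump
  set Y : E → E := fun x => U x • X x with hY
  have hYs : tsupport Y ⊆ tsupport X := closure_mono (Function.support_smul_subset_right U X)
  have hYc : HasCompactSupport Y := hXc.smul_left (f := U)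
  have hYd : ContDiff ℝ ∞ Y := hU.smul hX
  have h0 : ∫ x, dv Y x = 0 := integral_dv_eq_zero (hYd.of_le (by exact_mod_cast le_top)) hYc
  have h0' : ∫ x in ball p r, dv Y x = 0 := by
    rw [← h0]
    apply setIntegral_eq_integral_of_forall_compl_eq_zero
    intro x hx
    exact dv_eq_zero_of_notMem fun h => hx (hXs (hYs h))
  have hYi : IntegrableOn (fun x => dv Y x) (ball p r) :=
    ((continuous_dv (hYd.of_le (by exact_mod_cast le_top))).integrable_of_hasCompactSupport
      (hasCompactSupport_dv hYc)).integrableOn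
  have hdY : ∀ x, dv Y x = U x * dv X x + ⟪gr U x, X x⟫ := fun x =>
    dv_smul (hU.contDiffAt.differentiableAt (by simp)) (hX.contDiffAt.differentiableAt (by simp))
  have hop : IsOpen (Ω \ S) := hΩ.sdiff hS
  have hSae : ∀ᵐ x ∂(volume.restrict (ball p r)), x ∉ S :=
    ae_restrict_of_ae (compl_mem_ae_iff.mpr hS0)
  set g : E → ℝ := fun x => h x - U x with hgdef
  have hae : ∀ᵐ x ∂(volume.restrict (ball p r)), g x * dv X x + ⟪gr g x, X x⟫
      = (h x * dv X x + ⟪gr h x, X x⟫) - dv Y x := by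
    filter_upwards [hSae, ae_restrict_mem isOpen_ball.measurableSet] with x hxS hxb
    have hhd : DifferentiableAt ℝ h x :=
      (hh.contDiffAt (hop.mem_nhds ⟨hbΩ hxb, hxS⟩)).differentiableAt (by simp)
    have hUd : DifferentiableAt ℝ U x := hU.contDiffAt.differentiableAt (by simp)
    rw [hdY, inner_gr, inner_gr, inner_gr, hgdef, fderiv_fun_sub hhd hUd]
    simp only [sub_apply]
    ring
  have hint' : IntegrableOn (fun x => g x * dv X x + ⟪gr g x, X x⟫) (ball p r) := by
    have h3 : IntegrableOn (fun x => (h x * dv X x + ⟪gr h x, X x⟫) - dv Y x) (ball p r) := hint.sub hYi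
    refine h3.congr ?_
    filter_upwards [hae] with x hx
    exact hx.symm
  have h3 := hC1 g (ε / (C1 + 1)) (by positivity)
    ((hh.mono (fun x hx => ⟨hbΩ hx.1, hx.2⟩)).sub hU.contDiffOn) hint' hUη
  rw [integral_congr_ae hae, integral_sub hint hYi, h0', sub_zero] at h3
  refine h3.trans ?_
  rw [← mul_div_assoc, div_le_iff₀ (by positivity)]
  nlinarith

end Pool.Agent.H49.CK
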