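import Mathlib
import Pool.Agent.H92.CK.Targets
import Pool.Agent.H30.IC.Base

/-!
# Module MOR of MP_0ee698_an: functions with square integrable second derivatives in a half ball are
Hölder continuous with exponent `1/2` up to the flat part
-/

open MeasureTheory Set Filter Topology Metric
open scoped ENNReal NNReal ContDiff RealInnerProductSpace

namespace Pool.Agent.H49.CK

open Pool.Agent.H94.IC Pool.Agent.H94.AC Pool.Agent.H92.CK

/-- open cube with corner `a` -/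
def CB (a : E) (h : ℝ) : Set E := {x : E | ∀ k, a k < x k ∧ x k < a k + h}

/-- closed cube with corner `a` -/
def CC (a : E) (h : ℝ) : Set E := {x : E | ∀ k, a k ≤ x k ∧ x k ≤ a k + h}

theorem CB_sub_CC (a : E) (h : ℝ) : CB a h ⊆ CC a h := fun _ hx k => ⟨(hx k).1.le, (hx k).2.le⟩

theorem isOpen_CB (a : E) (h : ℝ) : IsOpen (CB a h) := by
  have h1 : CB a h = ⋂ k : Fin 3, {x : E | a k < x k ∧ x k < a k + h} := by
    ext x
    simp [CB]
  rw [h1]
  refine isOpen_iInter_of_finite fun k => ?_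
  have h2 : Continuous fun x : E => x k := by fun_prop
  exact (isOpen_lt continuous_const h2).inter (isOpen_lt h2 continuous_const)

theorem vol_CB (a : E) (h : ℝ) (hh : 0 < h) : volume (CB a h) = ENNReal.ofReal (h ^ 3) := by
  have h1 : MeasurePreserving (MeasurableEquiv.toLp 2 (Fin 3 → ℝ)) := PiLp.volume_preserving_toLp (Fin 3)
  have h2 : (MeasurableEquiv.toLp 2 (Fin 3 → ℝ)) ⁻¹' (CB a h)
      = Set.pi univ (fun k => Ioo (a k) (a k + h)) := by
    ext p
    simp [CB, Set.mem_pi]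
  rw [← h1.measure_preimage_equiv, h2, Real.volume_pi_Ioo]
  simp only [add_sub_cancel_left, Finset.prod_const, Finset.card_univ, Fintype.card_fin]
  rw [ENNReal.ofReal_pow hh.le]

theorem real_CB (a : E) (h : ℝ) (hh : 0 < h) : volume.real (CB a h) = h ^ 3 := by
  rw [Measure.real, vol_CB a h hh, ENNReal.toReal_ofReal (by positivity)]

theorem isCompact_CC (a : E) (h : ℝ) : IsCompact (CC a h) := by
  have h1 : CC a h = ⋂ k : Fin 3, {x : E | a k ≤ x k ∧ x k ≤ a k + h} := by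
    ext x
    simp [CC]
  have hc : IsClosed (CC a h) := by
    rw [h1]
    refine isClosed_iInter fun k => ?_
    have h2 : Continuous fun x : E => x k := by fun_prop
    exact (isClosed_le continuous_const h2).inter (isClosed_le h2 continuous_const)
  refine Metric.isCompact_of_isClosed_isBounded hc ?_
  refine (isBounded_iff_subset_closedBall a).2 ⟨2 * |h|, fun x hx => ?_⟩
  rw [mem_closedBall, dist_eq_norm]
  have h3 : ‖x - a‖ ^ 2 ≤ (2 * |h|) ^ 2 := by
    rw [EuclideanSpace.norm_sq_eq, Fin.sum_univ_three]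
    have h4 : ∀ k : Fin 3, ‖(x - a) k‖ ^ 2 ≤ |h| ^ 2 := by
      intro k
      have h5 : 0 ≤ x k - a k := by linarith [(hx k).1]
      have h6 : x k - a k ≤ |h| := by linarith [(hx k).2, le_abs_self h]
      rw [PiLp.sub_apply, Real.norm_eq_abs, abs_of_nonneg h5]
      exact pow_le_pow_left₀ h5 h6 2
    nlinarith [h4 0, h4 1, h4 2, sq_nonneg |h|]
  exact le_of_sq_le_sq h3 (by positivity)

theorem intOn {a : E} {h : ℝ} {f : E → ℝ} (hf : ContinuousOn f (CC a h)) :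
    IntegrableOn f (CB a h) :=
  (hf.integrableOn_compact (isCompact_CC a h)).mono_set (CB_sub_CC a h)

/-- the mean over the cube -/
noncomputable def mn (v : E → ℝ) (a : E) (h : ℝ) : ℝ := (h ^ 3)⁻¹ * ∫ x in CB a h, v x

theorem int_sub_const {a : E} {h : ℝ} (hh : 0 < h) {v : E → ℝ} (hv : IntegrableOn v (CB a h)) (c : ℝ) :
    ∫ x in CB a h, (v x - c) = (∫ x in CB a h, v x) - c * h ^ 3 := by
  have hfin : IntegrableOn (fun _ : E => c) (CB a h) := by
    refine integrableOn_const ?_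
    rw [vol_CB a h hh]
    exact ENNReal.ofReal_ne_top
  rw [integral_sub hv hfin, setIntegral_const, real_CB a h hh, smul_eq_mul, mul_comm]

theorem mn_sub {a : E} {h : ℝ} (hh : 0 < h) {v : E → ℝ} (hv : IntegrableOn v (CB a h)) (c : ℝ) :
    mn v a h - c = (h ^ 3)⁻¹ * ∫ x in CB a h, (v x - c) := by
  rw [int_sub_const hh hv, mn]
  have : h ^ 3 ≠ 0 := by positivity
  field_simp

theorem jens {a : E} {h : ℝ} (hh : 0 < h) {g : E → ℝ} (hg : IntegrableOn g (CB a h))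
    (hg2 : IntegrableOn (fun x => g x ^ 2) (CB a h)) :
    (∫ x in CB a h, g x) ^ 2 ≤ h ^ 3 * ∫ x in CB a h, g x ^ 2 := by
  set c := (h ^ 3)⁻¹ * ∫ x in CB a h, g x with hc
  have hV : 0 < h ^ 3 := by positivity
  have hI : (∫ x in CB a h, g x) = c * h ^ 3 := by
    rw [hc]
    field_simp
  have h1 : 0 ≤ ∫ x in CB a h, (g x - c) ^ 2 := integral_nonneg fun x => sq_nonneg _
  have hfin : IntegrableOn (fun _ : E => c ^ 2) (CB a h) := by
    refine integrableOn_const ?_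
    rw [vol_CB a h hh]
    exact ENNReal.ofReal_ne_top
  have h2 : ∫ x in CB a h, (g x - c) ^ 2
      = (∫ x in CB a h, g x ^ 2) - 2 * c * (∫ x in CB a h, g x) + c ^ 2 * h ^ 3 := by
    have h3 : ∀ x, (g x - c) ^ 2 = (g x ^ 2 - 2 * c * g x) + c ^ 2 := fun x => by ring
    simp_rw [h3]
    have h4 : IntegrableOn (fun x => 2 * c * g x) (CB a h) := hg.const_mul _
    have h5 : IntegrableOn (fun x => g x ^ 2 - 2 * c * g x) (CB a h) := hg2.sub h4
    rw [integral_add h5 hfin, integral_sub hg2 h4, integral_const_mul, setIntegral_const,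
      real_CB a h hh, smul_eq_mul, mul_comm (h ^ 3)]
  rw [h2, hI] at h1
  rw [hI]
  nlinarith

theorem gr_sub_const (v : E → ℝ) (c : ℝ) (x : E) : gr (fun y => v y - c) x = gr v x := by
  simp only [gr, gradient, fderiv_sub_const]

section Cube

variable (hCUB : T_CUB) {U : Set E} (hU : IsOpen U) {v : E → ℝ} (hv : ContDiffOn ℝ 1 v U)

include hCUB hU hv

theorem osc {a : E} {h : ℝ} (hh : 0 < h) (hC : CC a h ⊆ U) :
    ∫ x in CB a h, (v x - mn v a h) ^ 2 ≤ 3 * h ^ 2 * ∫ x in CB a h, ‖gr v x‖ ^ 2 := by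
  have hi : IntegrableOn v (CB a h) := intOn (hv.continuousOn.mono hC)
  have h1 := hCUB a h U (fun x => v x - mn v a h) hh hU hC (hv.sub contDiffOn_const) ?_
  · simp_rw [gr_sub_const] at h1
    exact h1
  · have h2 := mn_sub hh hi (mn v a h)
    rw [sub_self] at h2
    have h3 : (h ^ 3)⁻¹ ≠ 0 := by positivity
    rcases mul_eq_zero.1 h2.symm with h4 | h4
    · exact absurd h4 h3
    · exact h4

theorem nested {a b : E} {h k : ℝ} (hh : 0 < h) (hk : 0 < k) (hC : CC a h ⊆ U)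
    (hs : CB b k ⊆ CB a h) :
    (mn v b k - mn v a h) ^ 2 ≤ (k ^ 3)⁻¹ * (3 * h ^ 2 * ∫ x in CB a h, ‖gr v x‖ ^ 2) := by
  have hc : ContinuousOn v (CC a h) := hv.continuousOn.mono hC
  have hi : IntegrableOn v (CB b k) := (intOn hc).mono_set hs
  set c := mn v a h with hcdef
  have hg : IntegrableOn (fun x => v x - c) (CB b k) :=
    (intOn (hc.sub continuousOn_const)).mono_set hs
  have hg2a : IntegrableOn (fun x => (v x - c) ^ 2) (CB a h) :=
    intOn ((hc.sub continuousOn_const).pow 2)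
  have hg2 : IntegrableOn (fun x => (v x - c) ^ 2) (CB b k) := hg2a.mono_set hs
  rw [mn_sub hk hi c, mul_pow]
  have h1 := jens hk hg hg2
  have h2 : ∫ x in CB b k, (v x - c) ^ 2 ≤ ∫ x in CB a h, (v x - c) ^ 2 :=
    setIntegral_mono_set hg2a (ae_of_all _ fun x => sq_nonneg _) hs.eventuallyLE
  have h3 := osc hCUB hU hv hh hC
  have hk3 : 0 < k ^ 3 := by positivity
  calc (k ^ 3)⁻¹ ^ 2 * (∫ x in CB b k, (v x - c)) ^ 2
      ≤ (k ^ 3)⁻¹ ^ 2 * (k ^ 3 * ∫ x in CB b k, (v x - c) ^ 2) :=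
        mul_le_mul_of_nonneg_left h1 (by positivity)
    _ = (k ^ 3)⁻¹ * ∫ x in CB b k, (v x - c) ^ 2 := by
        field_simp
    _ ≤ (k ^ 3)⁻¹ * (3 * h ^ 2 * ∫ x in CB a h, ‖gr v x‖ ^ 2) :=
        mul_le_mul_of_nonneg_left (h2.trans h3) (by positivity)

end Cube

/-- the corner of the cube above `x` -/
noncomputable def cor (x : E) (h : ℝ) : E := !₂[x 0 - h / 2, x 1 - h / 2, x 2]

theorem mem_CB (x y : E) (h k : ℝ) : y ∈ CB (cor x h) k ↔ (x 0 - h / 2 < y 0 ∧ y 0 < x 0 - h / 2 + k) ∧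
    (x 1 - h / 2 < y 1 ∧ y 1 < x 1 - h / 2 + k) ∧ (x 2 < y 2 ∧ y 2 < x 2 + k) := by
  simp only [CB, mem_ofPred_eq, Fin.forall_fin_succ, cor]
  simp

theorem mem_CC (x y : E) (h k : ℝ) : y ∈ CC (cor x h) k ↔ (x 0 - h / 2 ≤ y 0 ∧ y 0 ≤ x 0 - h / 2 + k) ∧
    (x 1 - h / 2 ≤ y 1 ∧ y 1 ≤ x 1 - h / 2 + k) ∧ (x 2 ≤ y 2 ∧ y 2 ≤ x 2 + k) := by
  simp only [CC, mem_ofPred_eq, Fin.forall_fin_succ, cor]
  simp

theorem CC_near {x y : E} {h : ℝ} (hh : 0 < h) (hy : y ∈ CC (cor x h) h) : ‖y - x‖ ≤ 3 / 2 * h := by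
  rw [mem_CC] at hy
  obtain ⟨⟨a1, a2⟩, ⟨b1, b2⟩, c1, c2⟩ := hy
  have h3 : ‖y - x‖ ^ 2 ≤ (3 / 2 * h) ^ 2 := by
    rw [EuclideanSpace.norm_sq_eq, Fin.sum_univ_three]
    simp only [PiLp.sub_apply, Real.norm_eq_abs, sq_abs]
    have e0 : (y 0 - x 0) ^ 2 ≤ (h / 2) ^ 2 := by
      apply sq_le_sq'
      · linarith
      · linarith
    have e1 : (y 1 - x 1) ^ 2 ≤ (h / 2) ^ 2 := by
      apply sq_le_sq'
      · linarith
      · linarith
    have e2 : (y 2 - x 2) ^ 2 ≤ h ^ 2 := by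
      apply sq_le_sq'
      · linarith
      · linarith
    nlinarith [sq_nonneg h]
  exact le_of_sq_le_sq h3 (by positivity)

theorem CC_sub {r : ℝ} {x : E} {h : ℝ} (hx : x ∈ HB (r / 8)) (hh : 0 < h) (hr : h ≤ r / 8) :
    CC (cor x h) h ⊆ HB r := by
  intro y hy
  have h1 := CC_near hh hy
  rw [mem_CC] at hy
  refine ⟨?_, lt_of_lt_of_le hx.2 hy.2.2.1⟩
  have h2 : ‖y‖ ≤ ‖x‖ + ‖y - x‖ := by
    have := norm_add_le x (y - x)
    rwa [add_sub_cancel] at this
  have h3 : ‖x‖ < r / 8 := hx.1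
  linarith

theorem CB_double (x : E) {h : ℝ} (hh : 0 < h) : CB (cor x h) h ⊆ CB (cor x (2 * h)) (2 * h) := by
  intro y hy
  rw [mem_CB] at hy ⊢
  obtain ⟨⟨a1, a2⟩, ⟨b1, b2⟩, c1, c2⟩ := hy
  refine ⟨⟨?_, ?_⟩, ⟨?_, ?_⟩, ?_, ?_⟩ <;> linarith

/-- growth of the integrals of the squares over the cubes -/
theorem growth (hCUB : T_CUB) {r : ℝ} (hr : 0 < r) {f : E → ℝ} (hf : ContDiffOn ℝ ∞ f (HB r))
    (h1 : IntegrableOn (fun x => f x ^ 2) (HB r)) (h2 : IntegrableOn (fun x => ‖gr f x‖ ^ 2) (HB r))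
    {C : ℝ} (hC : 144 * (∫ x in HB r, ‖gr f x‖ ^ 2) + 256 / r ^ 2 * (∫ x in HB r, f x ^ 2) ≤ C)
    {x : E} (hx : x ∈ HB (r / 8)) : ∀ (j : ℕ) (h : ℝ), 0 < h → r / 16 < h * 2 ^ j → h * 2 ^ j ≤ r / 8 →
      ∫ y in CB (cor x h) h, f y ^ 2 ≤ C * h ^ 2 := by
  set M1 := ∫ x in HB r, f x ^ 2 with hM1
  set M2 := ∫ x in HB r, ‖gr f x‖ ^ 2 with hM2
  have hM1n : 0 ≤ M1 := integral_nonneg fun x => sq_nonneg _
  have hM2n : 0 ≤ M2 := integral_nonneg fun x => sq_nonneg _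
  have hop : IsOpen (HB r) := Pool.Agent.H30.IC.isOpen_HB r
  have hf1 : ContDiffOn ℝ 1 f (HB r) := hf.of_le (by exact_mod_cast le_top)
  have hmono : ∀ h : ℝ, 0 < h → h ≤ r / 8 → CB (cor x h) h ⊆ HB r := fun h hh hh' =>
    (CB_sub_CC _ _).trans (CC_sub hx hh hh')
  intro j
  induction j with
  | zero =>
    intro h hh hl hu
    rw [pow_zero, mul_one] at hl hu
    have e1 : ∫ y in CB (cor x h) h, f y ^ 2 ≤ M1 :=
      setIntegral_mono_set h1 (ae_of_all _ fun x => sq_nonneg _) (hmono h hh hu).eventuallyLE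
    have e2 : 256 / r ^ 2 * M1 ≤ C := by nlinarith
    have e3 : M1 ≤ 256 / r ^ 2 * M1 * h ^ 2 := by
      have e4 : 1 ≤ 256 / r ^ 2 * h ^ 2 := by
        rw [div_mul_eq_mul_div, le_div_iff₀ (by positivity)]
        nlinarith
      calc M1 = 1 * M1 := (one_mul _).symm
        _ ≤ (256 / r ^ 2 * h ^ 2) * M1 := mul_le_mul_of_nonneg_right e4 hM1n
        _ = _ := by ring
    exact e1.trans (e3.trans (mul_le_mul_of_nonneg_right e2 (sq_nonneg h)))
  | succ j ih =>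
    intro h hh hl hu
    have hp : (1 : ℝ) ≤ 2 ^ j := one_le_pow₀ (by norm_num)
    rw [pow_succ] at hl hu
    have hu2 : 2 * h ≤ r / 8 := by
      have : 2 * h ≤ h * (2 ^ j * 2) := by nlinarith
      linarith
    have ih' := ih (2 * h) (by positivity) (by nlinarith) (by nlinarith)
    have hCC := CC_sub hx (by positivity : 0 < 2 * h) hu2
    have hcont : ContinuousOn f (CC (cor x (2 * h)) (2 * h)) := hf.continuousOn.mono hCC
    have hsub := CB_double x hh
    set c := mn f (cor x (2 * h)) (2 * h) with hc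
    have e1 := osc hCUB hop hf1 (by positivity : 0 < 2 * h) hCC
    have e2 := jens (by positivity : 0 < 2 * h) (intOn hcont) (intOn (hcont.pow 2))
    have e3 : c ^ 2 ≤ ((2 * h) ^ 3)⁻¹ * ∫ y in CB (cor x (2 * h)) (2 * h), f y ^ 2 := by
      rw [hc, mn, mul_pow]
      have hV : 0 < (2 * h) ^ 3 := by positivity
      calc ((2 * h) ^ 3)⁻¹ ^ 2 * (∫ x in CB (cor x (2 * h)) (2 * h), f x) ^ 2
          ≤ ((2 * h) ^ 3)⁻¹ ^ 2 * ((2 * h) ^ 3 * ∫ x in CB (cor x (2 * h)) (2 * h), f x ^ 2) :=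
            mul_le_mul_of_nonneg_left e2 (by positivity)
        _ = _ := by field_simp
    have hg2a : IntegrableOn (fun y => (f y - c) ^ 2) (CB (cor x (2 * h)) (2 * h)) :=
      intOn ((hcont.sub continuousOn_const).pow 2)
    have e4 : ∫ y in CB (cor x h) h, (f y - c) ^ 2 ≤ 3 * (2 * h) ^ 2 * M2 := by
      calc ∫ y in CB (cor x h) h, (f y - c) ^ 2
          ≤ ∫ y in CB (cor x (2 * h)) (2 * h), (f y - c) ^ 2 :=
            setIntegral_mono_set hg2a (ae_of_all _ fun x => sq_nonneg _) hsub.eventuallyLE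
        _ ≤ 3 * (2 * h) ^ 2 * ∫ y in CB (cor x (2 * h)) (2 * h), ‖gr f y‖ ^ 2 := e1
        _ ≤ 3 * (2 * h) ^ 2 * M2 := by
            refine mul_le_mul_of_nonneg_left ?_ (by positivity)
            exact setIntegral_mono_set h2 (ae_of_all _ fun x => sq_nonneg _)
              (hmono (2 * h) (by positivity) hu2).eventuallyLE
    have hfin : IntegrableOn (fun _ : E => 3 / 2 * c ^ 2) (CB (cor x h) h) := by
      refine integrableOn_const ?_
      rw [vol_CB _ h hh]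
      exact ENNReal.ofReal_ne_top
    have hg2 : IntegrableOn (fun y => 3 * (f y - c) ^ 2) (CB (cor x h) h) :=
      (hg2a.mono_set hsub).const_mul 3
    have e5 : ∫ y in CB (cor x h) h, f y ^ 2
        ≤ ∫ y in CB (cor x h) h, (3 * (f y - c) ^ 2 + 3 / 2 * c ^ 2) := by
      refine setIntegral_mono ((intOn (hcont.pow 2)).mono_set hsub) (hg2.add hfin) fun y => ?_
      nlinarith [sq_nonneg (2 * f y - 3 * c)]
    have e6 : ∫ y in CB (cor x h) h, (3 * (f y - c) ^ 2 + 3 / 2 * c ^ 2)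
        = 3 * (∫ y in CB (cor x h) h, (f y - c) ^ 2) + 3 / 2 * c ^ 2 * h ^ 3 := by
      rw [integral_add hg2 hfin, integral_const_mul, setIntegral_const, real_CB _ h hh, smul_eq_mul]
      ring
    have hh3 : 0 < h ^ 3 := by positivity
    have e7 : c ^ 2 * h ^ 3 ≤ C * h ^ 2 / 2 := by
      calc c ^ 2 * h ^ 3 ≤ (((2 * h) ^ 3)⁻¹ * ∫ y in CB (cor x (2 * h)) (2 * h), f y ^ 2) * h ^ 3 :=
            mul_le_mul_of_nonneg_right e3 hh3.le
        _ ≤ (((2 * h) ^ 3)⁻¹ * (C * (2 * h) ^ 2)) * h ^ 3 := by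
            refine mul_le_mul_of_nonneg_right ?_ hh3.le
            exact mul_le_mul_of_nonneg_left ih' (by positivity)
        _ = _ := by field_simp
    have e8 : 144 * M2 ≤ C := by
      have : 0 ≤ 256 / r ^ 2 * M1 := by positivity
      linarith
    have hh2 : 0 ≤ h ^ 2 := sq_nonneg h
    have e9 : 144 * M2 * h ^ 2 ≤ C * h ^ 2 := mul_le_mul_of_nonneg_right e8 hh2
    calc ∫ y in CB (cor x h) h, f y ^ 2
        ≤ 3 * (∫ y in CB (cor x h) h, (f y - c) ^ 2) + 3 / 2 * c ^ 2 * h ^ 3 := e5.trans_eq e6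
      _ ≤ 3 * (3 * (2 * h) ^ 2 * M2) + 3 / 2 * (C * h ^ 2 / 2) := by nlinarith
      _ = 36 * M2 * h ^ 2 + 3 / 4 * (C * h ^ 2) := by ring
      _ ≤ C * h ^ 2 := by nlinarith

theorem growth' (hCUB : T_CUB) {r : ℝ} (hr : 0 < r) {f : E → ℝ} (hf : ContDiffOn ℝ ∞ f (HB r))
    (h1 : IntegrableOn (fun x => f x ^ 2) (HB r)) (h2 : IntegrableOn (fun x => ‖gr f x‖ ^ 2) (HB r)) :
    ∃ C : ℝ, 0 ≤ C ∧ ∀ x ∈ HB (r / 8), ∀ h : ℝ, 0 < h → h ≤ r / 8 →
      ∫ y in CB (cor x h) h, f y ^ 2 ≤ C * h ^ 2 := by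
  refine ⟨144 * (∫ x in HB r, ‖gr f x‖ ^ 2) + 256 / r ^ 2 * (∫ x in HB r, f x ^ 2), ?_, ?_⟩
  · have a1 : 0 ≤ ∫ x in HB r, ‖gr f x‖ ^ 2 := integral_nonneg fun x => sq_nonneg _
    have a2 : 0 ≤ ∫ x in HB r, f x ^ 2 := integral_nonneg fun x => sq_nonneg _
    positivity
  · intro x hx h hh hu
    obtain ⟨n, hn1, hn2⟩ := exists_nat_pow_near (x := r / 8 / h) (y := (2 : ℝ))
      ((one_le_div hh).2 hu) (by norm_num)
    rw [le_div_iff₀ hh] at hn1
    rw [div_lt_iff₀ hh, pow_succ] at hn2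
    refine growth hCUB hr hf h1 h2 le_rfl hx n h hh ?_ ?_
    · linarith
    · linarith

theorem contDiffOn_one {f : E → ℝ} {U : Set E} (hf : ContDiffOn ℝ ∞ f U) : ContDiffOn ℝ 1 f U :=
  hf.of_le (by exact_mod_cast le_top)

/-- the square of the gradient is square integrable on the cubes with the right growth -/
theorem growth_gr (hCUB : T_CUB) {r : ℝ} (hr : 0 < r) {w : E → ℝ} (hw : ContDiffOn ℝ ∞ w (HB r))
    (hg : MemLp (gr w) 2 (volume.restrict (HB r)))
    (h2 : ∀ k l : Fin 3, MemLp (pd k (pd l w)) 2 (volume.restrict (HB r))) :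
    ∃ C : ℝ, 0 ≤ C ∧ ∀ x ∈ HB (r / 8), ∀ h : ℝ, 0 < h → h ≤ r / 8 →
      ∫ y in CB (cor x h) h, ‖gr w y‖ ^ 2 ≤ C * h ^ 2 := by
  have hop : IsOpen (HB r) := Pool.Agent.H30.IC.isOpen_HB r
  have hpd : ∀ k, ContDiffOn ℝ ∞ (pd k w) (HB r) := fun k => Pool.Agent.H30.IC.contDiffOn_pd hop hw k
  have h1 : ∀ k : Fin 3, IntegrableOn (fun x => pd k w x ^ 2) (HB r) := fun k =>
    ((Pool.Agent.H30.IC.memLp_gr_iff w).1 hg k).integrable_sq
  have h3 : ∀ k : Fin 3, IntegrableOn (fun x => ‖gr (pd k w) x‖ ^ 2) (HB r) := by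
    intro k
    have h4 : MemLp (gr (pd k w)) 2 (volume.restrict (HB r)) :=
      (Pool.Agent.H30.IC.memLp_gr_iff (pd k w)).2 fun l => h2 l k
    exact h4.integrable_norm_pow (by norm_num)
  choose C hC0 hC using fun k : Fin 3 => growth' hCUB hr (hpd k) (h1 k) (h3 k)
  refine ⟨∑ k, C k, Finset.sum_nonneg fun k _ => hC0 k, fun x hx h hh hu => ?_⟩
  have hsub : CB (cor x h) h ⊆ HB r := (CB_sub_CC _ _).trans (CC_sub hx hh hu)
  simp_rw [Pool.Agent.H30.IC.norm_gr_sq]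
  rw [integral_finsetSum _ fun k _ => (h1 k).mono_set hsub, Finset.sum_mul]
  exact Finset.sum_le_sum fun k _ => hC k x hx h hh hu

theorem CB_half (x : E) {h : ℝ} (hh : 0 < h) : CB (cor x (h / 2)) (h / 2) ⊆ CB (cor x h) h := by
  have := CB_double x (by positivity : 0 < h / 2)
  rwa [mul_div_cancel₀ h (two_ne_zero)] at this

section Point

variable (hCUB : T_CUB) {r : ℝ} (hr : 0 < r) {w : E → ℝ} (hw : ContDiffOn ℝ ∞ w (HB r)) {C : ℝ}
  (hC0 : 0 ≤ C) (hC : ∀ x ∈ HB (r / 8), ∀ h : ℝ, 0 < h → h ≤ r / 8 →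
      ∫ y in CB (cor x h) h, ‖gr w y‖ ^ 2 ≤ C * h ^ 2)

include hCUB hr hw hC0 hC

set_option linter.unusedSectionVars false in
theorem half_step {x : E} (hx : x ∈ HB (r / 8)) {h : ℝ} (hh : 0 < h) (hu : h ≤ r / 8) :
    |mn w (cor x (h / 2)) (h / 2) - mn w (cor x h) h| ≤ Real.sqrt (24 * C * h) := by
  have hop : IsOpen (HB r) := Pool.Agent.H30.IC.isOpen_HB r
  apply Real.abs_le_sqrt
  have h1 := nested hCUB hop (contDiffOn_one hw) hh (by positivity : 0 < h / 2) (CC_sub hx hh hu)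
    (CB_half x hh)
  refine h1.trans ?_
  have h2 := hC x hx h hh hu
  calc ((h / 2) ^ 3)⁻¹ * (3 * h ^ 2 * ∫ y in CB (cor x h) h, ‖gr w y‖ ^ 2)
      ≤ ((h / 2) ^ 3)⁻¹ * (3 * h ^ 2 * (C * h ^ 2)) := by
        refine mul_le_mul_of_nonneg_left ?_ (by positivity)
        exact mul_le_mul_of_nonneg_left h2 (by positivity)
    _ = 24 * C * h := by
        field_simp
        ring

theorem steps {x : E} (hx : x ∈ HB (r / 8)) {h : ℝ} (hh : 0 < h) (hu : h ≤ r / 8) (j : ℕ) :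
    |mn w (cor x (h / 2 ^ j)) (h / 2 ^ j) - mn w (cor x h) h|
      ≤ 4 * (Real.sqrt (24 * C * h) - Real.sqrt (24 * C * (h / 2 ^ j))) := by
  induction j with
  | zero => simp
  | succ j ih =>
    have hp : (1 : ℝ) ≤ 2 ^ j := one_le_pow₀ (by norm_num)
    have hj : 0 < h / 2 ^ j := by positivity
    have hj2 : h / 2 ^ j ≤ r / 8 := (div_le_self hh.le hp).trans hu
    have h1 := half_step hCUB hr hw hC0 hC hx hj hj2
    have h2 : h / 2 ^ (j + 1) = h / 2 ^ j / 2 := by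
      rw [pow_succ]
      field_simp
    rw [h2]
    have h3 : 4 * Real.sqrt (24 * C * (h / 2 ^ j / 2)) ≤ 3 * Real.sqrt (24 * C * (h / 2 ^ j)) := by
      have a0 : 0 ≤ 24 * C * (h / 2 ^ j) := by positivity
      have a1 := Real.sq_sqrt a0
      have a2 : Real.sqrt (24 * C * (h / 2 ^ j / 2)) ^ 2 = 24 * C * (h / 2 ^ j / 2) :=
        Real.sq_sqrt (by positivity)
      refine le_of_sq_le_sq ?_ (by positivity)
      rw [mul_pow, mul_pow, a1, a2]
      nlinarith
    have h4 := abs_sub_le (mn w (cor x (h / 2 ^ j / 2)) (h / 2 ^ j / 2))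
      (mn w (cor x (h / 2 ^ j)) (h / 2 ^ j)) (mn w (cor x h) h)
    linarith

theorem point {x : E} (hx : x ∈ HB (r / 8)) {h : ℝ} (hh : 0 < h) (hu : h ≤ r / 8) :
    |w x - mn w (cor x h) h| ≤ 4 * Real.sqrt (24 * C * h) := by
  have hop : IsOpen (HB r) := Pool.Agent.H30.IC.isOpen_HB r
  have hxr : x ∈ HB r := Pool.Agent.H30.IC.HB_mono (by linarith) hx
  have hcx : ContinuousAt w x := hw.continuousOn.continuousAt (hop.mem_nhds hxr)
  refine le_of_forall_pos_le_add fun ε hε => ?_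
  obtain ⟨δ, hδ, hδw⟩ := Metric.continuousAt_iff.1 hcx ε hε
  obtain ⟨j, hj⟩ : ∃ j : ℕ, 2 * h / δ < 2 ^ j := pow_unbounded_of_one_lt _ (by norm_num)
  have hp : (1 : ℝ) ≤ 2 ^ j := one_le_pow₀ (by norm_num)
  have hj0 : 0 < h / 2 ^ j := by positivity
  have hj2 : h / 2 ^ j ≤ r / 8 := (div_le_self hh.le hp).trans hu
  have hj3 : 2 * (h / 2 ^ j) < δ := by
    rw [div_lt_iff₀ hδ] at hj
    rw [← mul_div_assoc, div_lt_iff₀ (by positivity)]
    linarith
  set k := h / 2 ^ j with hk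
  have h1 := steps hCUB hr hw hC0 hC hx hh hu j
  rw [← hk] at h1
  have hi : IntegrableOn w (CB (cor x k) k) := intOn (hw.continuousOn.mono (CC_sub hx hj0 hj2))
  have h2 : |mn w (cor x k) k - w x| ≤ ε := by
    rw [mn_sub hj0 hi, abs_mul, abs_of_pos (by positivity : 0 < (k ^ 3)⁻¹)]
    have h3 : ‖∫ y in CB (cor x k) k, (w y - w x)‖ ≤ ε * volume.real (CB (cor x k) k) := by
      refine norm_setIntegral_le_of_norm_le_const ?_ ?_
      · rw [vol_CB _ k hj0]
        exact ENNReal.ofReal_lt_top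
      · intro y hy
        have h4 := CC_near hj0 (CB_sub_CC _ _ hy)
        have h5 : dist y x < δ := by
          rw [dist_eq_norm]
          linarith
        have h6 := hδw h5
        rw [Real.dist_eq] at h6
        exact h6.le
    rw [real_CB _ k hj0, Real.norm_eq_abs] at h3
    calc (k ^ 3)⁻¹ * |∫ y in CB (cor x k) k, (w y - w x)| ≤ (k ^ 3)⁻¹ * (ε * k ^ 3) :=
          mul_le_mul_of_nonneg_left h3 (by positivity)
      _ = ε := by field_simp
  have h7 := abs_sub_le (w x) (mn w (cor x k) k) (mn w (cor x h) h)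
  rw [abs_sub_comm (w x) (mn w (cor x k) k)] at h7
  have h8 : 0 ≤ Real.sqrt (24 * C * k) := Real.sqrt_nonneg _
  linarith

theorem near {x y : E} (hx : x ∈ HB (r / 8)) (hy : y ∈ HB (r / 8)) (hu : 2 * ‖x - y‖ ≤ r / 8) :
    |w x - w y| ≤ 16 * Real.sqrt (48 * C) * Real.sqrt ‖x - y‖ := by
  have hop : IsOpen (HB r) := Pool.Agent.H30.IC.isOpen_HB r
  set d := ‖x - y‖ with hd
  have hd0 : 0 ≤ d := norm_nonneg _
  rcases hd0.eq_or_lt with h0 | h0
  · have : x = y := by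
      rw [← sub_eq_zero, ← norm_eq_zero, ← hd, ← h0]
    rw [this, ← h0]
    simp
  · have hcoord : ∀ k : Fin 3, |x k - y k| ≤ d := by
      intro k
      have := PiLp.norm_apply_le (x - y) k
      rwa [PiLp.sub_apply, Real.norm_eq_abs] at this
    set m : E := !₂[(x 0 + y 0) / 2, (x 1 + y 1) / 2, min (x 2) (y 2)] with hm
    have m0 : m 0 = (x 0 + y 0) / 2 := rfl
    have m1 : m 1 = (x 1 + y 1) / 2 := rfl
    have m2 : m 2 = min (x 2) (y 2) := rfl
    have hx2 : 0 < x 2 := hx.2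
    have hy2 : 0 < y 2 := hy.2
    have hmm : m ∈ HB (r / 8) := by
      refine ⟨?_, by rw [m2]; exact lt_min hx2 hy2⟩
      have a1 : ‖m‖ ≤ ‖(1 / 2 : ℝ) • (x + y)‖ := by
        refine le_of_sq_le_sq ?_ (norm_nonneg _)
        rw [EuclideanSpace.norm_sq_eq, EuclideanSpace.norm_sq_eq, Fin.sum_univ_three,
          Fin.sum_univ_three]
        simp only [PiLp.smul_apply, PiLp.add_apply, smul_eq_mul, Real.norm_eq_abs, sq_abs, m0, m1, m2]
        have a2 : min (x 2) (y 2) ≤ 1 / 2 * (x 2 + y 2) := by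
          have := min_le_left (x 2) (y 2)
          have := min_le_right (x 2) (y 2)
          linarith
        have a3 : 0 < min (x 2) (y 2) := lt_min hx2 hy2
        have a4 : min (x 2) (y 2) ^ 2 ≤ (1 / 2 * (x 2 + y 2)) ^ 2 := pow_le_pow_left₀ a3.le a2 2
        have a5 : ((x 0 + y 0) / 2) ^ 2 = (1 / 2 * (x 0 + y 0)) ^ 2 := by ring
        have a6 : ((x 1 + y 1) / 2) ^ 2 = (1 / 2 * (x 1 + y 1)) ^ 2 := by ring
        linarith
      have a7 : ‖(1 / 2 : ℝ) • (x + y)‖ ≤ 1 / 2 * (‖x‖ + ‖y‖) := by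
        rw [norm_smul, Real.norm_of_nonneg (by norm_num)]
        exact mul_le_mul_of_nonneg_left (norm_add_le _ _) (by norm_num)
      have a8 : ‖x‖ < r / 8 := hx.1
      have a9 : ‖y‖ < r / 8 := hy.1
      linarith
    have c0 := abs_le.1 (hcoord 0)
    have c1 := abs_le.1 (hcoord 1)
    have c2 := abs_le.1 (hcoord 2)
    have mle1 : min (x 2) (y 2) ≤ x 2 := min_le_left _ _
    have mle2 : min (x 2) (y 2) ≤ y 2 := min_le_right _ _
    have mge : x 2 - d ≤ min (x 2) (y 2) := le_min (by linarith) (by linarith)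
    have mge' : y 2 - d ≤ min (x 2) (y 2) := le_min (by linarith) (by linarith)
    have sx : CB (cor x d) d ⊆ CB (cor m (2 * d)) (2 * d) := by
      intro z hz
      rw [mem_CB] at hz ⊢
      obtain ⟨⟨a1, a2⟩, ⟨b1, b2⟩, e1, e2⟩ := hz
      rw [m0, m1, m2]
      refine ⟨⟨?_, ?_⟩, ⟨?_, ?_⟩, ?_, ?_⟩ <;> linarith
    have sy : CB (cor y d) d ⊆ CB (cor m (2 * d)) (2 * d) := by
      intro z hz
      rw [mem_CB] at hz ⊢
      obtain ⟨⟨a1, a2⟩, ⟨b1, b2⟩, e1, e2⟩ := hz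
      rw [m0, m1, m2]
      refine ⟨⟨?_, ?_⟩, ⟨?_, ?_⟩, ?_, ?_⟩ <;> linarith
    have hud : d ≤ r / 8 := by linarith
    have px := point hCUB hr hw hC0 hC hx h0 hud
    have py := point hCUB hr hw hC0 hC hy h0 hud
    have h2d : 0 < 2 * d := by positivity
    have hG := hC m hmm (2 * d) h2d hu
    have key : ∀ z : E, CB (cor z d) d ⊆ CB (cor m (2 * d)) (2 * d) →
        |mn w (cor z d) d - mn w (cor m (2 * d)) (2 * d)| ≤ Real.sqrt (48 * C * d) := by
      intro z hz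
      apply Real.abs_le_sqrt
      have h1 := nested hCUB hop (contDiffOn_one hw) h2d h0 (CC_sub hmm h2d hu) hz
      refine h1.trans ?_
      calc (d ^ 3)⁻¹ * (3 * (2 * d) ^ 2 * ∫ y in CB (cor m (2 * d)) (2 * d), ‖gr w y‖ ^ 2)
          ≤ (d ^ 3)⁻¹ * (3 * (2 * d) ^ 2 * (C * (2 * d) ^ 2)) := by
            refine mul_le_mul_of_nonneg_left ?_ (by positivity)
            exact mul_le_mul_of_nonneg_left hG (by positivity)
        _ = 48 * C * d := by
            field_simp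
            ring
    have kx := key x sx
    have ky := key y sy
    have s1 : Real.sqrt (24 * C * d) ≤ Real.sqrt (48 * C * d) := by
      apply Real.sqrt_le_sqrt
      have : 0 ≤ C * d := by positivity
      nlinarith
    have s2 : Real.sqrt (48 * C * d) = Real.sqrt (48 * C) * Real.sqrt d :=
      Real.sqrt_mul (by positivity) d
    have t1 := abs_le.1 px
    have t2 := abs_le.1 py
    have t3 := abs_le.1 kx
    have t4 := abs_le.1 ky
    have s3 : 0 ≤ Real.sqrt (48 * C * d) := Real.sqrt_nonneg _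
    rw [mul_assoc, ← s2, abs_le]
    constructor <;> linarith

end Point

theorem convex_HB (s : ℝ) : Convex ℝ (HB s) := by
  have h1 : HB s = ball 0 s ∩ {y : E | 0 < y 2} := by
    ext y
    simp [HB]
  rw [h1]
  refine (convex_ball 0 s).inter ?_
  intro a ha b hb s t hs ht hst
  have ha' : 0 < a 2 := ha
  have hb' : 0 < b 2 := hb
  change 0 < (s • a + t • b) 2
  simp only [PiLp.add_apply, PiLp.smul_apply, smul_eq_mul]
  rcases hs.eq_or_lt with h | h
  · have : t = 1 := by linarith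
    rw [← h, this]
    linarith
  · have : 0 < s * a 2 := by positivity
    have : 0 ≤ t * b 2 := by positivity
    linarith

theorem pf_MOR (hCUB : T_CUB) : T_MOR := by
  intro r w hr hw hg h2
  obtain ⟨C, hC0, hC⟩ := growth_gr hCUB hr hw hg h2
  refine ⟨64 * Real.sqrt (48 * C), fun x hx y hy => ?_⟩
  have key := fun (x y : E) hx hy hu => near hCUB hr hw hC0 hC (x := x) (y := y) hx hy hu
  set K := Real.sqrt (48 * C) with hK
  have hK0 : 0 ≤ K := Real.sqrt_nonneg _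
  set d := ‖x - y‖ with hd
  have hd0 : 0 ≤ d := norm_nonneg _
  have hd1 : d < r / 4 := by
    have a1 := norm_sub_le x y
    have a2 : ‖x‖ < r / 8 := hx.1
    have a3 : ‖y‖ < r / 8 := hy.1
    linarith
  let z : ℝ → E := fun t => (1 - t) • x + t • y
  have hz : ∀ t ∈ Icc (0 : ℝ) 1, z t ∈ HB (r / 8) := fun t ht =>
    convex_HB _ hx hy (by linarith [ht.2]) ht.1 (by ring)
  have hdz : ∀ s t : ℝ, ‖z s - z t‖ = |t - s| * d := by
    intro s t
    have : z s - z t = (t - s) • (x - y) := by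
      simp only [z]
      module
    rw [this, norm_smul, Real.norm_eq_abs]
  have hstep : ∀ s t : ℝ, s ∈ Icc (0 : ℝ) 1 → t ∈ Icc (0 : ℝ) 1 → |t - s| ≤ 1 / 4 →
      |w (z s) - w (z t)| ≤ 16 * K * Real.sqrt d := by
    intro s t hs ht hst
    have b1 : ‖z s - z t‖ ≤ d / 4 := by
      rw [hdz]
      nlinarith
    have b2 := key (z s) (z t) (hz s hs) (hz t ht) (by linarith)
    have b3 : Real.sqrt ‖z s - z t‖ ≤ Real.sqrt d := Real.sqrt_le_sqrt (by linarith)
    calc |w (z s) - w (z t)| ≤ 16 * K * Real.sqrt ‖z s - z t‖ := b2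
      _ ≤ 16 * K * Real.sqrt d := mul_le_mul_of_nonneg_left b3 (by positivity)
  have e1 := abs_le.1 (hstep 0 (1 / 4) (by norm_num) (by norm_num) (by norm_num))
  have e2 := abs_le.1 (hstep (1 / 4) (1 / 2) (by norm_num) (by norm_num) (by norm_num))
  have e3 := abs_le.1 (hstep (1 / 2) (3 / 4) (by norm_num) (by norm_num) (by norm_num))
  have e4 := abs_le.1 (hstep (3 / 4) 1 (by norm_num) (by norm_num) (by norm_num))
  have z0 : z 0 = x := by simp [z]
  have z1 : z 1 = y := by simp [z]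
  rw [z0] at e1
  rw [z1] at e4
  rw [abs_le]
  constructor <;> linarith [e1.1, e1.2, e2.1, e2.2, e3.1, e3.2, e4.1, e4.2]

end Pool.Agent.H49.CK
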